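import Pool.Agent.MP_888de5_co.Hex.All

set_option autoImplicit false
open MeasureTheory

/-- A measurable set `A ⊆ X × Y ⊆ [0,1]²` of positive measure contains the six corners of an
L-shaped axis-parallel hexagon (the rectangle with opposite corners (a,p), (c,s) minus the corner
rectangle with opposite corners (a,p), (b,q)) of area at least `κ |A|² / (|X| |Y|)`. -/
theorem Pool.Agent.Results.MP_888de5_co.HexagonL.result :
    ∃ κ : ℝ, 0 < κ ∧ ∀ (X Y : Set ℝ) (A : Set (ℝ × ℝ)), MeasurableSet X → MeasurableSet Y →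
      MeasurableSet A → X ⊆ Set.Icc (0 : ℝ) 1 → Y ⊆ Set.Icc (0 : ℝ) 1 → A ⊆ X ×ˢ Y →
      0 < volume A →
      ∃ a b c p q s : ℝ, (a, q) ∈ A ∧ (b, q) ∈ A ∧ (b, p) ∈ A ∧ (c, p) ∈ A ∧ (c, s) ∈ A ∧
        (a, s) ∈ A ∧ b ∈ Set.uIcc a c ∧ q ∈ Set.uIcc p s ∧
        κ * (volume A).toReal ^ 2 ≤
          (|c - a| * |s - p| - |b - a| * |q - p|) * ((volume X).toReal * (volume Y).toReal) :=
  Hex888.hex2_all
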